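import Pool.Agent.Helper31.RG.Goals

/-!
# Range concatenation grammars: the computation inside a zone (packet LOC)
-/

namespace Pool.Agent.Helper67.RG.PkLOC

open Pool.Agent.Helper65.LinSpace Pool.Agent.Helper78 Pool.Agent.Helper78.Mpc
  Pool.Agent.Helper78.Xor Finset Pool.Agent.Helper31.RG
open Pool.Agent.Helper95.BG (lor orB ext_bits dig_lor dig_orB orB_lt lor_lt orB_congr dig2_lt)

theorem wt_le (k : ℕ) {n N : ℕ} (h : n ≤ N) : wt k n ≤ (k + 1) * N + 1 := by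
  unfold wt
  have h1 : (k + 1) * n ≤ (k + 1) * N := Nat.mul_le_mul_left _ h
  have h2 : ifz n 1 0 ≤ 1 := by
    unfold ifz
    split_ifs <;> omega
  omega

theorem pot_one_le {k N : ℕ} (hN : 0 < N) (e : ℕ) : pot k 1 N e ≤ k * ((k + 1) * N + 1) := by
  unfold pot
  have h : ∀ l ∈ range k, wt k (dig N e (2 * l + 1) / 1 - dig N e (2 * l) / 1) ≤
      (k + 1) * N + 1 := by
    intro l _
    refine wt_le k ?_
    rw [Nat.div_one, Nat.div_one]
    have := dig_lt hN e (2 * l + 1)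
    omega
  have := sum_le_card_nsmul _ _ _ h
  rwa [card_range, smul_eq_mul] at this

theorem dig2_zero (t : ℕ) : dig 2 0 t = 0 := by simp [dig]

section

variable {q k r b M : ℕ} {lt : ℕ → ℕ} {bt : ℕ → ℕ → ℕ} {ps : ℕ → ℕ} {φ Z : ℕ}

theorem trm_lt (hbt : ∀ x y, bt x y < 2 ^ q) (N : ℕ) (R : ℕ → ℕ) (e c : ℕ) :
    trm q k r N lt bt R e c < 2 ^ q :=
  ifz_lt (hbt _ _) (by positivity)

/-- A near cut is computed correctly from a table which is correct for the items of smaller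
weight. -/
theorem near_ok (hG : G_GEO) (hL : G_LIFT) (hk : 0 < k) (hb : 0 < b) (hM : 0 < M)
    (hps : ∀ x, ps x < 2 ^ q) {s W x : ℕ}
    (ih : ∀ x < (2 * k * b) ^ (2 * k), pot k 1 (M * b) (lft k b M Z (2 * k) x) < s →
      dig (2 ^ q) W x = dig (2 ^ q) (ZT q k b M (V q k r (M * b) lt bt ps) φ Z) x)
    (hs : pot k 1 (M * b) (lft k b M Z (2 * k) x) < s + 1)
    (hφ : pot k b (M * b) (lft k b M Z (2 * k) x) = φ) (xc : ℕ) :
    trm q k r (M * b) lt bt (fun π => dig (2 ^ q) W (yN k r (2 * k * b) x xc π))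
      (lft k b M Z (2 * k) x) (lft k b M Z (k * r) xc) =
    trm q k r (M * b) lt bt
      (fun π => V q k r (M * b) lt bt ps
        (yN k r (M * b) (lft k b M Z (2 * k) x) (lft k b M Z (k * r) xc) π))
      (lft k b M Z (2 * k) x) (lft k b M Z (k * r) xc) := by
  refine trm_congr fun hv π _ hinj hlt => ?_
  obtain ⟨h1, h2⟩ := (hL k r b M hk hb hM).2.1 Z x xc π
  have h3 := (hG k r b (M * b) _ _ (Nat.mul_pos hM hb) hv).1 π hinj
  show dig (2 ^ q) W (yN k r (2 * k * b) x xc π) = _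
  rw [ih _ h1 (by rw [h2]; omega), dig_ZT (V_lt hps) _ _ h1, h2, if_neg (by omega)]

/-- One step. -/
theorem step_ok (hG : G_GEO) (hL : G_LIFT) (hk : 0 < k) (hb : 0 < b) (hM : 0 < M)
    (hps : ∀ x, ps x < 2 ^ q) (hφ0 : 0 < φ) {s W x : ℕ}
    (ih : ∀ x < (2 * k * b) ^ (2 * k), pot k 1 (M * b) (lft k b M Z (2 * k) x) < s →
      dig (2 ^ q) W x = dig (2 ^ q) (ZT q k b M (V q k r (M * b) lt bt ps) φ Z) x)
    (hx : x < (2 * k * b) ^ (2 * k))
    (hs : pot k 1 (M * b) (lft k b M Z (2 * k) x) < s + 1) :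
    dig (2 ^ q) (stepZ q k r b M lt bt ps φ Z
      (ST q k r b M lt bt (V q k r (M * b) lt bt ps) φ Z 0 (M ^ (k * r)))
      (ZT q k b M (V q k r (M * b) lt bt ps) (φ - 1) Z) W) x =
    dig (2 ^ q) (ZT q k b M (V q k r (M * b) lt bt ps) φ Z) x := by
  have hN : 0 < M * b := Nat.mul_pos hM hb
  have hp : 0 < 2 ^ q := by positivity
  unfold stepZ
  rw [dig_tab (fun _ _ => ifz_lt (ifz_lt (hps _) (dig_lt hp _ _)) hp) hx,
    dig_ZT (V_lt hps) φ Z hx, ifz_lt01]
  by_cases h1 : φ < pot k b (M * b) (lft k b M Z (2 * k) x)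
  · rw [if_pos h1, if_pos h1]
  rw [if_neg h1, if_neg h1, ifz_lt01]
  by_cases h2 : pot k b (M * b) (lft k b M Z (2 * k) x) < φ
  · rw [if_pos h2, dig_ZT (V_lt hps) (φ - 1) Z hx, if_neg (by omega)]
  rw [if_neg h2]
  have hφ : pot k b (M * b) (lft k b M Z (2 * k) x) = φ := by omega
  rw [V_eq (q := q) (k := k) (r := r) (N := M * b) (lt := lt) (bt := bt) (ps := ps)
    (lft k b M Z (2 * k) x)]
  congr 1
  refine ext_bits (lor_lt _ _ _) (orB_lt _ _ _ _) fun t ht => ?_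
  rw [dig_lor, dig_orB, dig_orB, dig_ST _ _ _ _ hx, if_neg h1, dig_orB]
  constructor
  · rintro ⟨_, ⟨_, C, _, hC, h3⟩ | ⟨_, xc, _, _, h3⟩⟩
    · obtain ⟨_, o, _, ho, h4⟩ := (dig_orB _ _ _ _ _).1 h3
      refine ⟨ht, cutN b M (k * r) C o, Nat.zero_le _, cutN_lt hb hM _ _ _, ?_⟩
      by_cases hf : farN k r b (M * b) (lft k b M Z (2 * k) x) (cutN b M (k * r) C o) = 0
      · rw [hf, Pool.Agent.Helper31.RG.ifz_zero, dig2_zero] at h4
        omega
      · rwa [ifz_pos hf] at h4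
    · refine ⟨ht, lft k b M Z (k * r) xc, Nat.zero_le _, lft_lt hb hM _ _ _, ?_⟩
      unfold nearN at h3
      by_cases hf : farN k r b (M * b) (lft k b M Z (2 * k) x) (lft k b M Z (k * r) xc) = 0
      · rwa [hf, Pool.Agent.Helper31.RG.ifz_zero, near_ok hG hL hk hb hM hps ih hs hφ xc] at h3
      · rw [ifz_pos hf, dig2_zero] at h3
        omega
  · rintro ⟨_, c, _, hc, h3⟩
    refine ⟨ht, ?_⟩
    by_cases hv : vldB k r (M * b) (lft k b M Z (2 * k) x) c = 0
    · by_cases hf : farN k r b (M * b) (lft k b M Z (2 * k) x) c = 0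
      · right
        obtain ⟨xc, hxc, h5⟩ := (hL k r b M hk hb hM).2.2.2.2.2.2 Z x c hc fun t' ht' =>
          ((hG k r b (M * b) _ _ hN hv).2.2 t' ht').2.2 hf
        refine ⟨ht, xc, Nat.zero_le _, hxc, ?_⟩
        unfold nearN
        rw [near_ok hG hL hk hb hM hps ih hs hφ xc, h5, hf, Pool.Agent.Helper31.RG.ifz_zero]
        exact h3
      · left
        obtain ⟨C, hC, o, ho, h5⟩ := (hL k r b M hk hb hM).2.2.2.2.2.1 (k * r) c hc
        refine ⟨ht, C, Nat.zero_le _, hC, (dig_orB _ _ _ _ _).2 ⟨ht, o, Nat.zero_le _, ho, ?_⟩⟩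
        rw [h5, ifz_pos hf]
        exact h3
    · unfold trm at h3
      rw [ifz_pos hv, dig2_zero] at h3
      omega

end

theorem thm (hG : G_GEO) (hL : G_LIFT) : G_LOC := by
  intro q k r b M lt bt ps φ Z hk hb hM _ hps hφ0
  have hN : 0 < M * b := Nat.mul_pos hM hb
  have hp : 0 < 2 ^ q := by positivity
  unfold classZ
  have inv : ∀ s, ∀ x < (2 * k * b) ^ (2 * k), pot k 1 (M * b) (lft k b M Z (2 * k) x) < s →
      dig (2 ^ q) (nrec 0 (fun _ W => stepZ q k r b M lt bt ps φ Z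
        (ST q k r b M lt bt (V q k r (M * b) lt bt ps) φ Z 0 (M ^ (k * r)))
        (ZT q k b M (V q k r (M * b) lt bt ps) (φ - 1) Z) W) s) x =
      dig (2 ^ q) (ZT q k b M (V q k r (M * b) lt bt ps) φ Z) x := by
    intro s
    induction s with
    | zero => intro x _ h; omega
    | succ s ih =>
      intro x hx hs
      rw [nrec_succ]
      exact step_ok hG hL hk hb hM hps hφ0 ih hx hs
  refine ext_dig (B := 2 ^ q) (n := (2 * k * b) ^ (2 * k)) ?_ ?_ fun x hx =>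
    inv _ x hx (Nat.lt_succ_of_le (pot_one_le hN _))
  · rw [nrec_succ]
    exact tab_lt fun _ _ => ifz_lt (ifz_lt (hps _) (dig_lt hp _ _)) hp
  · exact tab_lt fun _ _ => ifz_lt (V_lt hps _) hp

end Pool.Agent.Helper67.RG.PkLOC
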